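import Mathlib
import Pool.Agent.H42.Semf2

open Pool.Agent.H42.SemfDefs

/-- A semifilter with a nonempty clopen subset that is not homeomorphic to it. -/
theorem Pool.Agent.Results.MP_7a28e0_gt.No.result :
    ∃ S : Set (ℕ → ZMod 2), Semifilter S ∧
      ∃ U : Set S, IsClopen U ∧ U.Nonempty ∧ IsEmpty (U ≃ₜ S) :=
  Pool.Agent.H42.Semf2.main
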